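import Mathlib

namespace Pool.Agent.Results.MP_424b19_co.Neq

open Finset

variable {V : Type} [Fintype V] [DecidableEq V] (G : SimpleGraph V) [DecidableRel G.Adj]

/-- one toppling of a ready vertex -/
def Topple (c c' : V → ℕ) : Prop :=
  ∃ v, G.degree v ≤ c v ∧ c' v = c v - G.degree v ∧
    ∀ w, w ≠ v → c' w = c w + if G.Adj v w then 1 else 0

/-- the toppling phase started from `c` stops, in the configuration `c'` -/
def Stab (c c' : V → ℕ) : Prop :=
  Relation.ReflTransGen (Topple G) c c' ∧ ∀ v, c' v < G.degree v

/-- Max can ensure that the toppling phase stops in each of the next `k` turns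
(`true`: Max is to move, `false`: Min is to move) -/
def Lasts : ℕ → Bool → (V → ℕ) → Prop
  | 0, _, _ => True
  | k + 1, true, c => ∃ v c', Stab G (Function.update c v (c v + 1)) c' ∧ Lasts k false c'
  | k + 1, false, c => ∀ v, ∃ c', Stab G (Function.update c v (c v + 1)) c' ∧ Lasts k true c'

def lap (f : V → ℤ) (x : V) : ℤ := ∑ y ∈ G.neighborFinset x, (f x - f y)

theorem reach_lap {c c' : V → ℕ} (h : Relation.ReflTransGen (Topple G) c c') :
    ∃ f : V → ℤ, ∀ x, (c x : ℤ) - c' x = lap G f x := by
  induction h with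
  | refl => exact ⟨0, fun x => by simp [lap]⟩
  | tail _ h ih =>
    obtain ⟨f, hf⟩ := ih
    obtain ⟨v, h1, h2, h3⟩ := h
    refine ⟨fun x => f x + if x = v then 1 else 0, fun x => ?_⟩
    have e : lap G (fun x => f x + if x = v then 1 else 0) x = lap G f x +
        ∑ y ∈ G.neighborFinset x, ((if x = v then 1 else 0) - (if y = v then 1 else 0) : ℤ) := by
      unfold lap
      rw [← sum_add_distrib]
      exact sum_congr rfl fun y _ => by ring
    rw [e, ← hf x, sum_sub_distrib, sum_ite_eq']
    by_cases hx : x = v
    · subst hx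
      simp [h2, Nat.cast_sub h1]
      ring
    · rw [h3 x hx]
      simp only [hx, if_false, sum_const_zero, SimpleGraph.mem_neighborFinset, G.adj_comm v x]
      push_cast
      split_ifs <;> simp <;> ring

theorem sum_lap (f : V → ℤ) : ∑ x, lap G f x = 0 := by
  unfold lap
  have h1 : ∀ g : V → V → ℤ, ∑ x, ∑ y ∈ G.neighborFinset x, g x y =
      ∑ x, ∑ y, if G.Adj x y then g x y else 0 := by
    intro g
    refine sum_congr rfl fun x _ => ?_
    rw [← sum_filter]
    congr 1
    ext y; simp
  simp only [sum_sub_distrib]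
  rw [h1 (fun x _ => f x), h1 (fun _ y => f y), sum_comm]
  simp only [G.adj_comm]
  ring

theorem total_eq {c c' : V → ℕ} (h : Relation.ReflTransGen (Topple G) c c') :
    ∑ x, c x = ∑ x, c' x := by
  obtain ⟨f, hf⟩ := reach_lap G h
  have := sum_lap G f
  simp only [← hf, sum_sub_distrib] at this
  have h2 : ((∑ x, c x : ℕ) : ℤ) = (∑ x, c' x : ℕ) := by push_cast; linarith
  exact_mod_cast h2

theorem total_upd (c : V → ℕ) (v : V) :
    ∑ x, Function.update c v (c v + 1) x = ∑ x, c x + 1 := by
  have : ∀ x, Function.update c v (c v + 1) x = c x + if x = v then 1 else 0 := by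
    intro x
    by_cases hx : x = v
    · subst hx; simp
    · simp [hx]
  simp only [this, sum_add_distrib, sum_ite_eq', mem_univ, if_true]

theorem bound [Nonempty V] : ∀ k p c, (∀ v, c v < G.degree v) → Lasts G k p c →
    ∑ x, c x + k ≤ ∑ x, G.degree x := by
  intro k
  induction k with
  | zero => intro p c hc _; exact sum_le_sum fun x _ => (hc x).le
  | succ k ih =>
    intro p c hc h
    obtain ⟨v, c', q, h1, h2⟩ : ∃ v c' q, Stab G (Function.update c v (c v + 1)) c' ∧
        Lasts G k q c' := by
      cases p
      · obtain ⟨c', h1, h2⟩ := h (Classical.arbitrary V)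
        exact ⟨_, c', _, h1, h2⟩
      · obtain ⟨v, c', h1, h2⟩ := h
        exact ⟨v, c', _, h1, h2⟩
    have := ih q c' h1.2 h2
    rw [← total_eq G h1.1, total_upd] at this
    omega

theorem no_lap (hG : G.Connected) {u v : V} (huv : G.Adj u v)
    (hr : (G.deleteEdges {s(u, v)}).Reachable u v) (f : V → ℤ)
    (hf : ∀ x, lap G f x = (if x = u then 1 else 0) - (if x = v then 1 else 0)) : False := by
  obtain ⟨z, -, hz⟩ := exists_max_image univ f ⟨u, mem_univ u⟩
  have hz' : ∀ y, f y ≤ f z := fun y => hz y (mem_univ y)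
  have hne := huv.ne
  have hv : f v ≠ f z := by
    intro e
    have h1 : 0 ≤ lap G f v := sum_nonneg fun y _ => by have := hz' y; omega
    rw [hf v, if_neg hne.symm, if_pos rfl] at h1
    omega
  have key : ∀ x y, G.Adj x y → f x = f z → f y ≠ f z → x = u := by
    intro x y hxy hx hy
    have h1 : f x - f y ≤ lap G f x :=
      single_le_sum (f := fun y => f x - f y) (fun y _ => by have := hz' y; omega)
        (by simpa using hxy)
    rw [hf x] at h1
    have := hz' y
    by_contra hxu
    rw [if_neg hxu] at h1
    split_ifs at h1 <;> omega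
  have hu : f u = f z := by
    obtain ⟨p⟩ := hG.preconnected z v
    obtain ⟨d, -, h1, h2⟩ := p.exists_boundary_dart {x | f x = f z} rfl hv
    have := key _ _ d.adj h1 h2
    rw [← this]; exact h1
  obtain ⟨p⟩ := hr
  obtain ⟨d, -, h1, h2⟩ := p.exists_boundary_dart {x | f x = f z} hu hv
  have hd := d.adj
  rw [SimpleGraph.deleteEdges_adj] at hd
  have hx := key _ _ hd.1 h1 h2
  have hy : d.toProd.2 ≠ v := by
    intro e
    apply hd.2
    rw [hx, e]; rfl
  have h3 : ∑ y ∈ {v, d.toProd.2}, (f u - f y) ≤ lap G f u := by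
    apply sum_le_sum_of_subset_of_nonneg
    · intro y hy
      simp only [mem_insert, mem_singleton] at hy
      rcases hy with rfl | rfl
      · simpa using huv
      · simpa [← hx] using hd.1
    · intro y _ _
      have := hz' y; omega
  rw [sum_pair hy.symm, hf u, if_pos rfl, if_neg hne] at h3
  have := hz' v
  have := hz' d.toProd.2
  have h2' : f d.toProd.2 ≠ f z := h2
  omega

theorem one_more (c : V → ℕ) (hc : ∀ v, c v < G.degree v) (v : V) (hv : c v + 1 < G.degree v) :
    Lasts G 1 true c := by
  refine ⟨v, _, ⟨Relation.ReflTransGen.refl, fun w => ?_⟩, trivial⟩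
  by_cases hw : w = v
  · subst hw; simpa using hv
  · simpa [hw] using hc w

theorem extend (hG : G.Connected) {u v : V} (huv : G.Adj u v)
    (hr : (G.deleteEdges {s(u, v)}).Reachable u v) :
    ∀ k p c, (p = true ↔ k % 2 = 1) → Lasts G (k + 1) p c → Lasts G (k + 2) p c := by
  intro k
  induction k with
  | zero =>
    intro p c hp h
    have : p = false := by cases p <;> simp_all
    subst this
    intro w
    obtain ⟨c', h1, -⟩ := h w
    refine ⟨c', h1, ?_⟩
    by_contra hn
    have hfull : ∀ x, c' x + 1 = G.degree x := by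
      intro x
      have := h1.2 x
      by_contra hx
      exact hn (one_more G c' h1.2 x (by omega))
    have all : ∀ a, ∃ f : V → ℤ, ∀ x, (c x : ℤ) + (if x = a then 1 else 0) - c' x = lap G f x := by
      intro a
      obtain ⟨d, h2, -⟩ := h a
      have e1 := total_eq G h1.1
      have e2 := total_eq G h2.1
      rw [total_upd] at e1 e2
      have hle : ∀ x ∈ (univ : Finset V), d x ≤ c' x := fun x _ => by
        have := h2.2 x; have := hfull x; omega
      have heq := (sum_eq_sum_iff_of_le hle).1 (by omega)
      obtain ⟨f, hf⟩ := reach_lap G h2.1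
      refine ⟨f, fun x => ?_⟩
      rw [← hf x, heq x (mem_univ x)]
      by_cases hx : x = a
      · subst hx; simp
      · simp [hx]
    obtain ⟨f, hf⟩ := all u
    obtain ⟨g, hg⟩ := all v
    refine no_lap G hG huv hr (fun x => f x - g x) fun x => ?_
    have e : lap G (fun x => f x - g x) x = lap G f x - lap G g x := by
      unfold lap
      rw [← sum_sub_distrib]
      exact sum_congr rfl fun y _ => by ring
    rw [e, ← hf, ← hg]; ring
  | succ k ih =>
    intro p c hp h
    cases p
    · intro w
      obtain ⟨c', h1, h2⟩ := h w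
      exact ⟨c', h1, ih true c' (by simp at hp ⊢; omega) h2⟩
    · obtain ⟨w, c', h1, h2⟩ := h
      exact ⟨w, c', h1, ih false c' (by simp at hp ⊢; omega) h2⟩

theorem result (hG : G.Connected) (hT : ¬ G.IsTree) :
    ∃ a b : ℕ, IsLeast {k | ¬ Lasts G k true (fun _ => 0)} a ∧
      IsLeast {k | ¬ Lasts G k false (fun _ => 0)} b ∧ a ≠ b := by
  classical
  have hac : ¬ G.IsAcyclic := fun h => hT ⟨hG, h⟩
  rw [SimpleGraph.isAcyclic_iff_forall_adj_isBridge] at hac
  push Not at hac
  obtain ⟨u, v, huv, hb⟩ := hac
  have hr : (G.deleteEdges {s(u, v)}).Reachable u v := by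
    rw [SimpleGraph.isBridge_iff] at hb
    push Not at hb
    exact hb
  haveI : Nonempty V := ⟨u⟩
  haveI : Nontrivial V := ⟨u, v, huv.ne⟩
  have h0 : ∀ x, (fun _ => 0 : V → ℕ) x < G.degree x := fun x => by
    simpa using hG.preconnected.degree_pos_of_nontrivial x
  have hex : ∀ p, ∃ k, ¬ Lasts G k p (fun _ => 0) := fun p =>
    ⟨∑ x, G.degree x + 1, fun h => by have := bound G _ _ _ h0 h; omega⟩
  refine ⟨Nat.find (hex true), Nat.find (hex false),
    ⟨Nat.find_spec (hex true), fun k hk => Nat.find_min' _ hk⟩,
    ⟨Nat.find_spec (hex false), fun k hk => Nat.find_min' _ hk⟩, fun e => ?_⟩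
  have h1 : Lasts G 1 true (fun _ => 0) := by
    refine one_more G _ h0 u ?_
    obtain ⟨p⟩ := hr
    cases p with
    | nil => exact absurd rfl huv.ne
    | cons ha q =>
      rename_i y
      rw [SimpleGraph.deleteEdges_adj] at ha
      have hy : y ≠ v := by rintro rfl; exact ha.2 rfl
      have : ({v, y} : Finset V) ⊆ G.neighborFinset u := by
        intro x hx
        simp only [mem_insert, mem_singleton] at hx
        rcases hx with rfl | rfl
        · simpa using huv
        · simpa using ha.1
      have h2 := card_le_card this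
      rw [card_pair hy.symm, SimpleGraph.card_neighborFinset_eq_degree] at h2
      omega
  have s1 := Nat.find_spec (hex true)
  have s2 := Nat.find_spec (hex false)
  have m1 := fun k => Nat.find_min (hex true) (m := k)
  have m2 := fun k => Nat.find_min (hex false) (m := k)
  rw [← e] at s2 m2
  generalize Nat.find (hex true) = t at *
  rcases t with _ | _ | k
  · exact s1 trivial
  · exact s1 h1
  · by_cases hk : k % 2 = 1
    · exact s1 (extend G hG huv hr k true _ (by simp [hk]) (not_not.1 (m1 (k + 1) (by omega))))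
    · exact s2 (extend G hG huv hr k false _ (by simp [hk]) (not_not.1 (m2 (k + 1) (by omega))))

end Pool.Agent.Results.MP_424b19_co.Neq
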